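import Pool.Agent.Helper13.JS.St

/-!
# Project JS (helper13), module EU: upper bound for the number of integers free of `E`
-/

set_option autoImplicit false

namespace Pool.Agent.Helper79.JS

open Finset ArithmeticFunction Pool.Agent.Helper13.JS

/-- multiples of a squarefree number -/
theorem eu_count (N : ℕ) (T : Finset ℕ) (hT : ∀ p ∈ T, p.Prime) :
    |(((Icc 1 N).filter (fun n => ∀ p ∈ T, p ∣ n)).card : ℝ) - N * ∏ p ∈ T, 1 / (p : ℝ)| ≤ 1 := by
  obtain ⟨d, hd⟩ : ∃ d : ℕ, d = ∏ p ∈ T, p := ⟨_, rfl⟩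
  have hd0 : 0 < d := hd ▸ Finset.prod_pos fun p hp => (hT p hp).pos
  have h1 : (Icc 1 N).filter (fun n => ∀ p ∈ T, p ∣ n) = (Ioc 0 N).filter (fun n => d ∣ n) := by
    ext n
    simp only [Finset.mem_filter, Finset.mem_Icc, Finset.mem_Ioc]
    refine and_congr ⟨fun h => ⟨by omega, h.2⟩, fun h => ⟨by omega, h.2⟩⟩ ⟨fun h => ?_, fun h => ?_⟩
    · rw [hd]
      exact Finset.prod_primes_dvd n (fun p hp => (hT p hp).prime) h
    · intro p hp
      exact (hd ▸ Finset.dvd_prod_of_mem (fun p => p) hp : p ∣ d).trans h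
  rw [h1, Nat.Ioc_filter_dvd_card_eq_div]
  have h2 : ∏ p ∈ T, 1 / (p : ℝ) = 1 / (d : ℝ) := by
    rw [hd, Finset.prod_div_distrib, Finset.prod_const_one]
    push_cast
    rfl
  rw [h2]
  have hdR : (0 : ℝ) < d := by exact_mod_cast hd0
  have h3 : ((N / d : ℕ) : ℝ) * d ≤ N := by exact_mod_cast Nat.div_mul_le_self N d
  have h4 : (N : ℝ) < (((N / d : ℕ) : ℝ) + 1) * d := by
    exact_mod_cast Nat.lt_mul_of_div_lt (Nat.lt_succ_self (N / d)) hd0
  have h5 : (N : ℝ) * (1 / (d : ℝ)) * d = N := by field_simp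
  rw [abs_le]
  constructor <;> nlinarith

theorem hEU (hMP : StMP) : StEU := by
  obtain ⟨C₀, hC₀, hM1, _, hM3, hM4⟩ := hMP
  obtain ⟨B, hB⟩ := Pool.Agent.Helper18.TR.fl 1 1 one_pos one_pos
  obtain ⟨k, hk⟩ : ∃ k : ℕ, k = 2 * B + 2 := ⟨_, rfl⟩
  have hk1 : (1 : ℝ) ≤ k := by
    have : 1 ≤ k := by omega
    exact_mod_cast this
  have hC0 : 0 < C₀ := lt_of_lt_of_le one_pos hC₀
  refine ⟨C₀ * (4 * k + 2), by nlinarith, ?_⟩
  intro E N hE
  classical
  have hFN : (Fr E N : ℝ) ≤ N := by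
    have : Fr E N ≤ N := by
      unfold Fr
      refine (Finset.card_filter_le _ _).trans ?_
      simp
    exact_mod_cast this
  obtain ⟨hP0, hP1⟩ := hM4 E N hE
  have hN0 : (0 : ℝ) ≤ N := Nat.cast_nonneg N
  -- the small cases
  rcases Nat.lt_or_ge N 1 with h0 | h1
  · have : N = 0 := by omega
    subst this
    simpa using hFN
  by_cases hsmall : N < 2 ^ k
  · have hone : 1 ≤ C₀ * k * PE E N := by
      rcases Nat.lt_or_ge N 2 with h2 | h2
      · have hN1 : N = 1 := by omega
        have hPE : PE E N = 1 := by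
          unfold PE
          have : E.filter (· ≤ N) = ∅ := by
            rw [Finset.filter_eq_empty_iff]
            intro p hp hpN
            have := (hE p hp).two_le
            omega
          rw [this, Finset.prod_empty]
        rw [hPE]
        nlinarith
      · have h3 := hM3 E N hE h2
        have hlog : 0 < Real.log N := Real.log_pos (by exact_mod_cast h2)
        have hlog2 : Real.log N ≤ k := by
          have h4 : (N : ℝ) ≤ 2 ^ k := by exact_mod_cast hsmall.le
          have h5 : Real.log N ≤ Real.log (2 ^ k) :=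
            Real.log_le_log (by exact_mod_cast (show 0 < N by omega)) h4
          rw [Real.log_pow] at h5
          have h6 : Real.log 2 ≤ 1 := by
            have := Real.log_two_lt_d9
            linarith
          nlinarith
        have h7 : 1 ≤ PE E N * (C₀ * Real.log N) := by
          rwa [div_le_iff₀ (by positivity)] at h3
        have h8 : PE E N * (C₀ * Real.log N) ≤ PE E N * (C₀ * k) :=
          mul_le_mul_of_nonneg_left (mul_le_mul_of_nonneg_left hlog2 hC0.le) hP0.le
        nlinarith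
    have h2 : (N : ℝ) * 1 ≤ N * (C₀ * k * PE E N) := mul_le_mul_of_nonneg_left hone hN0
    have h3 : 0 ≤ C₀ * (3 * k + 2) * (N * PE E N) := by positivity
    nlinarith
  have hN2k : 2 ^ k ≤ N := Nat.le_of_not_lt hsmall
  -- the integer part of the root
  obtain ⟨w, hw⟩ : ∃ w : ℕ, w = Nat.findGreatest (fun w => w ^ k ≤ N) N := ⟨_, rfl⟩
  have hk0 : k ≠ 0 := by omega
  have h2N : 2 ≤ N := (Nat.le_self_pow hk0 2).trans hN2k
  have hwk : w ^ k ≤ N := by
    rw [hw]
    exact Nat.findGreatest_spec (P := fun w => w ^ k ≤ N) h2N hN2k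
  have hw2 : 2 ≤ w := by
    rw [hw]
    exact Nat.le_findGreatest h2N hN2k
  have hwN : w ≤ N := (Nat.le_self_pow hk0 w).trans hwk
  have hNw : N < (w + 1) ^ k := by
    by_contra hcon
    have hcon' : (w + 1) ^ k ≤ N := Nat.le_of_not_lt hcon
    have h3 : w + 1 ≤ N := (Nat.le_self_pow hk0 (w + 1)).trans hcon'
    exact Nat.findGreatest_is_greatest (P := fun w => w ^ k ≤ N) (n := N) (k := w + 1)
      (by rw [← hw]; exact Nat.lt_succ_self w) h3 hcon'
  have hlogw : 0 < Real.log w := Real.log_pos (by exact_mod_cast hw2)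
  have hlogN : 0 < Real.log N := Real.log_pos (by exact_mod_cast h2N)
  have hlogNw : Real.log N ≤ 2 * k * Real.log w := by
    have h3 : N ≤ w ^ (2 * k) := by
      refine hNw.le.trans ?_
      rw [pow_mul]
      refine Nat.pow_le_pow_left ?_ k
      nlinarith
    have h4 : (N : ℝ) ≤ (w : ℝ) ^ (2 * k) := by exact_mod_cast h3
    have h5 : Real.log N ≤ Real.log ((w : ℝ) ^ (2 * k)) :=
      Real.log_le_log (by exact_mod_cast (show 0 < N by omega)) h4
    rw [Real.log_pow] at h5
    push_cast at h5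
    exact h5
  -- the sieve
  have hfl := hB w hw2 (E.filter (· ≤ w))
    (fun p hp => ⟨hE p (Finset.mem_filter.1 hp).1, (Finset.mem_filter.1 hp).2⟩)
    (fun p => 1 / (p : ℝ))
    (fun p hp => by
      have hp2 : (2 : ℝ) ≤ p := by exact_mod_cast (hE p (Finset.mem_filter.1 hp).1).two_le
      refine ⟨by positivity, le_rfl, ?_⟩
      exact one_div_le_one_div_of_le (by norm_num) hp2)
    ℕ (Icc 1 N) (fun p n => p ∣ n) N 1 hN0 zero_le_one
    (fun T hT _ => eu_count N T fun p hp => hE p (Finset.mem_filter.1 (hT hp)).1)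
  have hFQ : (Fr E N : ℝ) ≤
      (((Icc 1 N).filter (fun a => ∀ p ∈ E.filter (· ≤ w), ¬ p ∣ a)).card : ℝ) := by
    have : Fr E N ≤ ((Icc 1 N).filter (fun a => ∀ p ∈ E.filter (· ≤ w), ¬ p ∣ a)).card := by
      unfold Fr
      refine Finset.card_le_card ?_
      intro n hn
      rw [Finset.mem_filter] at hn ⊢
      exact ⟨hn.1, fun p hp => hn.2 p (Finset.mem_filter.1 hp).1⟩
    exact_mod_cast this
  have hPEw : ∏ p ∈ E.filter (· ≤ w), (1 - 1 / (p : ℝ)) = PE E w := rfl
  rw [hPEw] at hfl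
  have hup := (abs_le.1 hfl).2
  have hFr : (Fr E N : ℝ) ≤ 2 * (N * PE E w) + (w : ℝ) ^ B := by linarith
  -- the main term
  have hmain : PE E w ≤ 2 * k * C₀ * PE E N := by
    have h3 := hM1 E w N hE hw2 hwN
    have hPw := (hM4 E w hE).1
    have h4 : 1 / (2 * k * C₀) ≤ Real.log w / (C₀ * Real.log N) := by
      rw [div_le_div_iff₀ (by positivity) (by positivity)]
      nlinarith
    have h5 : PE E w * (1 / (2 * k * C₀)) ≤ PE E N :=
      (mul_le_mul_of_nonneg_left h4 hPw.le).trans h3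
    rw [mul_one_div, div_le_iff₀ (by positivity)] at h5
    linarith
  -- the error term
  have herr : (w : ℝ) ^ B ≤ 2 * C₀ * (N * PE E N) := by
    have h3 := hM3 E N hE h2N
    have h4 : 1 ≤ PE E N * (C₀ * Real.log N) := by
      rwa [div_le_iff₀ (by positivity)] at h3
    have h5 : (w : ℝ) ^ B ≤ Real.sqrt N := by
      refine Real.le_sqrt_of_sq_le ?_
      have h6 : (w ^ B) ^ 2 ≤ N := by
        rw [← pow_mul]
        refine (Nat.pow_le_pow_right (by omega) ?_).trans hwk
        omega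
      exact_mod_cast h6
    have h6 : Real.log N ≤ 2 * Real.sqrt N := by
      have h7 := Real.log_le_self (Real.sqrt_nonneg (N : ℝ))
      rw [Real.log_sqrt hN0] at h7
      linarith
    have h7 : (w : ℝ) ^ B * Real.log N ≤ 2 * N := by
      have h8 : (w : ℝ) ^ B * Real.log N ≤ Real.sqrt N * (2 * Real.sqrt N) :=
        mul_le_mul h5 h6 hlogN.le (Real.sqrt_nonneg _)
      have h9 := Real.mul_self_sqrt hN0
      nlinarith
    have h8 : (w : ℝ) ^ B * 1 ≤ (w : ℝ) ^ B * (PE E N * (C₀ * Real.log N)) :=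
      mul_le_mul_of_nonneg_left h4 (by positivity)
    have h9 : (w : ℝ) ^ B * (PE E N * (C₀ * Real.log N)) =
        C₀ * PE E N * ((w : ℝ) ^ B * Real.log N) := by ring
    have h10 : C₀ * PE E N * ((w : ℝ) ^ B * Real.log N) ≤ C₀ * PE E N * (2 * N) :=
      mul_le_mul_of_nonneg_left h7 (by positivity)
    nlinarith
  have h11 : (N : ℝ) * PE E w ≤ N * (2 * k * C₀ * PE E N) :=
    mul_le_mul_of_nonneg_left hmain hN0
  calc (Fr E N : ℝ) ≤ 2 * (N * PE E w) + (w : ℝ) ^ B := hFr
    _ ≤ 2 * (N * (2 * k * C₀ * PE E N)) + 2 * C₀ * (N * PE E N) := by linarith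
    _ = C₀ * (4 * k + 2) * N * PE E N := by ring

end Pool.Agent.Helper79.JS
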